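import Mathlib
import Pool.Agent.H297R3.SL.Defs
import Pool.Agent.H297R3.SV.Defs

/-!
# Stacking of virtual string link diagrams, and flattening

The definitions of diagrams, moves and of self-virtualization are those of
`Pool.Agent.H297R3.SL.Defs` and `Pool.Agent.H297R3.SV.Defs`.
-/

set_option autoImplicit false

namespace Pool.Agent.Y463.SV

open Pool.Agent.H297R3.SL

/-- Forgetting the decoration of a classical crossing: a crossing change (the sign and the over
strand are exchanged) or a virtualization (the over strand is exchanged, the sign stays). Together
they allow any sign and any choice of the over strand at each classical crossing. -/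
inductive Redecoration {n : ℕ} : Diagram n → Diagram n → Prop
  | crossingChange (s : Bool) (a b c d : Edge) (bot top : Fin n → Edge) (Γ : List Piece) :
      Redecoration ⟨bot, top, Piece.cross s a b c d :: Γ⟩
        ⟨bot, top, Piece.cross (!s) c d a b :: Γ⟩
  | virtualization (s : Bool) (a b c d : Edge) (bot top : Fin n → Edge) (Γ : List Piece) :
      Redecoration ⟨bot, top, Piece.cross s a b c d :: Γ⟩
        ⟨bot, top, Piece.cross s c d a b :: Γ⟩

/-- Virtual string links up to self-virtualization, crossing changes and virtualizations of single
crossings: a quotient of `vSL_n^sv` in which a classical crossing between two different strands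
carries no information except its place. -/
def bareSL (n : ℕ) : Type :=
  Quot fun D D' : StringLinkDiagram n =>
    Move D.1 D'.1 ∨ SelfVirtualization D.1 D'.1 ∨ Redecoration D.1 D'.1

/-- The names of the edges of the lower diagram in a stack. -/
def low (e : Edge) : Edge := (2 * e.1, e.2)

/-- The names of the edges of the upper diagram in a stack. -/
def upp (e : Edge) : Edge := (2 * e.1 + 1, e.2)

/-- Stacking: the diagram `E` is put on top of the diagram `D`. The end of each strand of `D` is
joined by a marked point to the start of the strand of `E` at the same position. -/
def stackDiagram {n : ℕ} (D E : Diagram n) : Diagram n where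
  bot i := low (D.bot i)
  top i := upp (E.top i)
  pieces := D.pieces.map (Piece.rename low) ++ (E.pieces.map (Piece.rename upp) ++
    List.ofFn fun i => Piece.dot (low (D.top i)) (upp (E.bot i)))

end Pool.Agent.Y463.SV
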