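import Mathlib
import Pool.Agent.H297R3.SV.Cyc
import Pool.Agent.Y463.SV.Defs

set_option autoImplicit false

namespace Pool.Agent.Y463.SV

open Pool.Agent.H297R3.SL Pool.Agent.Helper718.VB

theorem low_inj : Function.Injective low := by
  rintro ⟨a, b⟩ ⟨c, d⟩ h
  simp only [low, Prod.mk.injEq] at h ⊢
  omega

theorem upp_inj : Function.Injective upp := by
  rintro ⟨a, b⟩ ⟨c, d⟩ h
  simp only [upp, Prod.mk.injEq] at h ⊢
  omega

theorem low_ne_upp (e e' : Edge) : low e ≠ upp e' := by
  intro h
  simp only [low, upp, Prod.mk.injEq] at h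
  omega

theorem insOf_rename (g : Edge → Edge) (L : List Piece) :
    insOf (L.map (Piece.rename g)) = (insOf L).map g := by
  induction L with
  | nil => rfl
  | cons p L ih =>
    simp only [insOf, List.map_cons, List.flatMap_cons, List.map_append] at ih ⊢
    rw [ih]
    congr 1
    cases p <;> rfl

theorem outsOf_rename (g : Edge → Edge) (L : List Piece) :
    outsOf (L.map (Piece.rename g)) = (outsOf L).map g := by
  induction L with
  | nil => rfl
  | cons p L ih =>
    simp only [outsOf, List.map_cons, List.flatMap_cons, List.map_append] at ih ⊢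
    rw [ih]
    congr 1
    cases p <;> rfl

theorem ins_dots {n : ℕ} (f g : Fin n → Edge) :
    insOf (List.ofFn fun i => Piece.dot (f i) (g i)) = List.ofFn f := by
  unfold insOf
  rw [List.ofFn_eq_map, List.flatMap_map, List.ofFn_eq_map]
  simp [Piece.ins, List.flatMap_singleton']
  rw [← List.map_eq_flatMap]

theorem outs_dots {n : ℕ} (f g : Fin n → Edge) :
    outsOf (List.ofFn fun i => Piece.dot (f i) (g i)) = List.ofFn g := by
  unfold outsOf
  rw [List.ofFn_eq_map, List.flatMap_map, List.ofFn_eq_map]
  simp [Piece.outs, List.flatMap_singleton']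
  rw [← List.map_eq_flatMap]

theorem next_rename {g : Edge → Edge} {L L' : List Piece}
    (h : ∀ p ∈ L, p.rename g ∈ L') {a b : Edge} (hn : Next L a b) : Next L' (g a) (g b) := by
  obtain ⟨p, hp, h1⟩ := hn
  refine ⟨p.rename g, h p hp, ?_⟩
  cases p with
  | cross s x y z w =>
    simp only [Piece.passages, Piece.rename, List.mem_cons, List.not_mem_nil, or_false,
      Prod.mk.injEq] at h1 ⊢
    rcases h1 with ⟨rfl, rfl⟩ | ⟨rfl, rfl⟩
    · exact Or.inl ⟨rfl, rfl⟩
    · exact Or.inr ⟨rfl, rfl⟩
  | dot x y =>
    simp only [Piece.passages, Piece.rename, List.mem_cons, List.not_mem_nil, or_false,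
      Prod.mk.injEq] at h1 ⊢
    obtain ⟨rfl, rfl⟩ := h1
    exact ⟨rfl, rfl⟩

theorem path_rename {g : Edge → Edge} {L L' : List Piece}
    (h : ∀ p ∈ L, p.rename g ∈ L') {a b : Edge} (hn : Relation.ReflTransGen (Next L) a b) :
    Relation.ReflTransGen (Next L') (g a) (g b) := by
  induction hn with
  | refl => exact Relation.ReflTransGen.refl
  | tail _ h2 ih => exact ih.tail (next_rename h h2)

theorem mem_low {n : ℕ} {D E : Diagram n} {p : Piece} (hp : p ∈ D.pieces) :
    p.rename low ∈ (stackDiagram D E).pieces :=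
  List.mem_append_left _ (List.mem_map_of_mem hp)

theorem mem_upp {n : ℕ} {D E : Diagram n} {p : Piece} (hp : p ∈ E.pieces) :
    p.rename upp ∈ (stackDiagram D E).pieces :=
  List.mem_append_right _ (List.mem_append_left _ (List.mem_map_of_mem hp))

theorem mem_dot {n : ℕ} {D E : Diagram n} (i : Fin n) :
    Piece.dot (low (D.top i)) (upp (E.bot i)) ∈ (stackDiagram D E).pieces :=
  List.mem_append_right _ (List.mem_append_right _ (by
    rw [List.mem_ofFn]
    exact ⟨i, rfl⟩))

theorem path_mid {n : ℕ} {D E : Diagram n} (hD : IsStringLink D) (i : Fin n) :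
    Relation.ReflTransGen (Next (stackDiagram D E).pieces) ((stackDiagram D E).bot i)
      (upp (E.bot i)) := by
  refine (path_rename (fun p hp => mem_low hp) (hD.2.2.1 i)).tail ?_
  exact ⟨_, mem_dot i, by simp [Piece.passages]⟩

theorem ofFn_comp {n : ℕ} (g : Edge → Edge) (f : Fin n → Edge) :
    (List.ofFn fun i => g (f i)) = (List.ofFn f).map g := by
  rw [List.map_ofFn]
  rfl

theorem stack_ins {n : ℕ} (D E : Diagram n) :
    (insOf (stackDiagram D E).pieces ++ List.ofFn (stackDiagram D E).top).Perm
      ((insOf D.pieces ++ List.ofFn D.top).map low ++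
        (insOf E.pieces ++ List.ofFn E.top).map upp) := by
  have e : insOf (stackDiagram D E).pieces ++ List.ofFn (stackDiagram D E).top =
      (insOf D.pieces).map low ++ ((insOf E.pieces).map upp ++ (List.ofFn D.top).map low) ++
        (List.ofFn E.top).map upp := by
    show insOf (D.pieces.map (Piece.rename low) ++ (E.pieces.map (Piece.rename upp) ++
      List.ofFn fun i => Piece.dot (low (D.top i)) (upp (E.bot i)))) ++
        (List.ofFn fun i => upp (E.top i)) = _
    rw [Bq.insOf_append, Bq.insOf_append, insOf_rename, insOf_rename, ins_dots, ofFn_comp,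
      ofFn_comp]
  rw [e]
  simp only [List.map_append, List.append_assoc]
  refine List.Perm.append_left _ ?_
  rw [← List.append_assoc, ← List.append_assoc]
  exact List.perm_append_comm.append_right _

theorem stack_outs {n : ℕ} (D E : Diagram n) :
    (outsOf (stackDiagram D E).pieces ++ List.ofFn (stackDiagram D E).bot).Perm
      ((outsOf D.pieces ++ List.ofFn D.bot).map low ++
        (outsOf E.pieces ++ List.ofFn E.bot).map upp) := by
  have e : outsOf (stackDiagram D E).pieces ++ List.ofFn (stackDiagram D E).bot =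
      (outsOf D.pieces).map low ++ ((outsOf E.pieces).map upp ++ (List.ofFn E.bot).map upp) ++
        (List.ofFn D.bot).map low := by
    show outsOf (D.pieces.map (Piece.rename low) ++ (E.pieces.map (Piece.rename upp) ++
      List.ofFn fun i => Piece.dot (low (D.top i)) (upp (E.bot i)))) ++
        (List.ofFn fun i => low (D.bot i)) = _
    rw [Bq.outsOf_append, Bq.outsOf_append, outsOf_rename, outsOf_rename, outs_dots, ofFn_comp,
      ofFn_comp]
  rw [e]
  simp only [List.map_append, List.append_assoc]
  refine List.Perm.append_left _ ?_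
  have h : ((outsOf E.pieces).map upp ++ ((List.ofFn E.bot).map upp ++
      (List.ofFn D.bot).map low)) = ((outsOf E.pieces).map upp ++ (List.ofFn E.bot).map upp) ++
      (List.ofFn D.bot).map low := by rw [List.append_assoc]
  rw [h]
  exact List.perm_append_comm

theorem nodup_low_upp {L L' : List Edge} (h : L.Nodup) (h' : L'.Nodup) :
    (L.map low ++ L'.map upp).Nodup := by
  refine List.Nodup.append (h.map low_inj) (h'.map upp_inj) ?_
  intro e h1 h2
  obtain ⟨a, _, rfl⟩ := List.mem_map.mp h1
  obtain ⟨b, _, h3⟩ := List.mem_map.mp h2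
  exact low_ne_upp a b h3.symm

/-- A stack of two virtual string link diagrams is a virtual string link diagram. -/
theorem stack_isStringLink {n : ℕ} {D E : Diagram n} (hD : IsStringLink D)
    (hE : IsStringLink E) : IsStringLink (stackDiagram D E) := by
  refine ⟨?_, ?_, ?_, ?_⟩
  · rw [(stack_ins D E).nodup_iff]
    exact nodup_low_upp hD.1 hE.1
  · refine (stack_ins D E).trans (List.Perm.trans ?_ (stack_outs D E).symm)
    exact (hD.2.1.map low).append (hE.2.1.map upp)
  · intro i
    exact (path_mid hD i).trans (path_rename (fun p hp => mem_upp hp) (hE.2.2.1 i))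
  · intro e he
    rw [(stack_ins D E).mem_iff] at he
    rcases List.mem_append.mp he with he | he
    · obtain ⟨a, ha, rfl⟩ := List.mem_map.mp he
      obtain ⟨i, hi⟩ := hD.2.2.2 a ha
      exact ⟨i, path_rename (fun p hp => mem_low hp) hi⟩
    · obtain ⟨a, ha, rfl⟩ := List.mem_map.mp he
      obtain ⟨i, hi⟩ := hE.2.2.2 a ha
      exact ⟨i, (path_mid hD i).trans (path_rename (fun p hp => mem_upp hp) hi)⟩

/-- The colourings of a stack. -/
theorem col_stack {X : Type} (B : Bq X) {n : ℕ} (D E : Diagram n) (x z : Fin n → X) :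
    B.Col (stackDiagram D E) x z ↔ ∃ y, B.Col D x y ∧ B.Col E y z := by
  constructor
  · rintro ⟨f, h1, h2, h3⟩
    refine ⟨fun i => f (low (D.top i)), ⟨f ∘ low, ?_, h2, fun _ => rfl⟩,
      ⟨f ∘ upp, ?_, ?_, h3⟩⟩
    · intro p hp
      exact (B.sat_rename low f p).mp (h1 _ (mem_low hp))
    · intro p hp
      exact (B.sat_rename upp f p).mp (h1 _ (mem_upp hp))
    · intro i
      have h : f (low (D.top i)) = f (upp (E.bot i)) := h1 _ (mem_dot i)
      exact h.symm
  · rintro ⟨y, ⟨f, f1, f2, f3⟩, ⟨g, g1, g2, g3⟩⟩
    let F : Edge → X := fun e => if e.1 % 2 = 0 then f (e.1 / 2, e.2) else g (e.1 / 2, e.2)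
    have hlow : ∀ e, F (low e) = f e := by
      rintro ⟨a, b⟩
      show (if (2 * a) % 2 = 0 then f (2 * a / 2, b) else g (2 * a / 2, b)) = f (a, b)
      rw [if_pos (by omega)]
      congr 2
      omega
    have hupp : ∀ e, F (upp e) = g e := by
      rintro ⟨a, b⟩
      show (if (2 * a + 1) % 2 = 0 then f ((2 * a + 1) / 2, b) else g ((2 * a + 1) / 2, b)) =
        g (a, b)
      rw [if_neg (by omega)]
      congr 2
      omega
    have hlow' : F ∘ low = f := funext hlow
    have hupp' : F ∘ upp = g := funext hupp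
    refine ⟨F, ?_, fun i => (hlow _).trans (f2 i), fun i => (hupp _).trans (g3 i)⟩
    intro p hp
    rcases List.mem_append.mp hp with hp | hp
    · obtain ⟨q, hq, rfl⟩ := List.mem_map.mp hp
      rw [B.sat_rename, hlow']
      exact f1 q hq
    rcases List.mem_append.mp hp with hp | hp
    · obtain ⟨q, hq, rfl⟩ := List.mem_map.mp hp
      rw [B.sat_rename, hupp']
      exact g1 q hq
    · rw [List.mem_ofFn] at hp
      obtain ⟨i, rfl⟩ := hp
      show F (low (D.top i)) = F (upp (E.bot i))
      rw [hlow, hupp, f3, g2]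

end Pool.Agent.Y463.SV
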