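import Mathlib
import Pool.Agent.Y463.SV.Stack

set_option autoImplicit false

namespace Pool.Agent.Y463.SV

open Pool.Agent.H297R3.SL Pool.Agent.Helper718.VB

/-! ### forgetting the decoration of a crossing -/

theorem K_swap (s : Bool) (oi oo ui uo : Lab) :
    bq5.K s oi oo ui uo ↔ bq5.K s ui uo oi oo := by
  rw [K_dec, K_dec]
  cases s
  · simp only [Bool.false_eq_true, if_false]
    exact and_comm
  · simp only [if_true]
    exact and_comm

theorem K_tf {oi oo ui uo : Lab} (h : bq5.K true oi oo ui uo) : bq5.K false oi oo ui uo := by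
  rw [K_dec] at h ⊢
  simp only [if_true, Bool.false_eq_true, if_false] at h ⊢
  have h1 := LS_LS uo oo
  rw [h.1, h.2] at h1
  exact ⟨h1.2, h1.1⟩

theorem K_ft {oi oo ui uo : Lab} (h : bq5.K false oi oo ui uo) : bq5.K true oi oo ui uo := by
  rw [K_dec] at h ⊢
  simp only [if_true, Bool.false_eq_true, if_false] at h ⊢
  have h1 := LS_LS ui oi
  rw [h.1, h.2] at h1
  exact ⟨h1.2, h1.1⟩

theorem K_sign (s : Bool) (oi oo ui uo : Lab) :
    bq5.K s oi oo ui uo ↔ bq5.K (!s) oi oo ui uo := by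
  cases s
  · exact ⟨K_ft, K_tf⟩
  · exact ⟨K_tf, K_ft⟩

theorem col_head {n : ℕ} {p q : Piece} {bot top : Fin n → Edge} {Γ : List Piece}
    (h : ∀ f : Edge → Lab, bq5.Sat f p ↔ bq5.Sat f q) (x y : Fin n → Lab) :
    bq5.Col ⟨bot, top, p :: Γ⟩ x y ↔ bq5.Col ⟨bot, top, q :: Γ⟩ x y := by
  unfold Bq.Col
  refine exists_congr fun f => and_congr_left fun _ => ?_
  simp only [List.forall_mem_cons, h f]

theorem col_redec {n : ℕ} {D D' : Diagram n} (h : Redecoration D D') (x y : Fin n → Lab) :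
    bq5.Col D x y ↔ bq5.Col D' x y := by
  cases h with
  | crossingChange s a b c d bot top Γ =>
    refine col_head (fun f => ?_) x y
    show bq5.K s (f a) (f b) (f c) (f d) ↔ bq5.K (!s) (f c) (f d) (f a) (f b)
    rw [K_swap, K_sign]
  | virtualization s a b c d bot top Γ =>
    refine col_head (fun f => ?_) x y
    show bq5.K s (f a) (f b) (f c) (f d) ↔ bq5.K s (f c) (f d) (f a) (f b)
    rw [K_swap]

theorem col_eqv_bare {n : ℕ} {D D' : StringLinkDiagram n}
    (h : Relation.EqvGen (fun D D' : StringLinkDiagram n =>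
      Move D.1 D'.1 ∨ SelfVirtualization D.1 D'.1 ∨ Redecoration D.1 D'.1) D D')
    (x y : Fin n → Lab) : bq5.Col D.1 x y ↔ bq5.Col D'.1 x y := by
  induction h with
  | rel D D' h =>
    rcases h with h | h | h
    · exact bq5.col_move h D.2 D'.2 x y
    · exact col_sv h x y
    · exact col_redec h x y
  | refl D => exact Iff.rfl
  | symm D D' _ ih => exact ih.symm
  | trans D D' D'' _ _ ih1 ih2 => exact ih1.trans ih2

theorem col_bare {n : ℕ} {D D' : StringLinkDiagram n}
    (h : (Quot.mk _ D : bareSL n) = Quot.mk _ D') (x y : Fin n → Lab) :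
    bq5.Col D.1 x y ↔ bq5.Col D'.1 x y := col_eqv_bare (Quot.eqvGen_exact h) x y

/-! ### monotone diagrams: all colours at the bottom extend -/

theorem layer_total {X : Type} (B : Bq X) {n : ℕ} (l : Letter n) (u : Fin n → X) :
    ∃ z : Fin n → X, ∀ (k : ℕ) (f : Edge → X), level n f k = u → level n f (k + 1) = z →
      ∀ p ∈ layer n k l, B.Sat f p := by
  have key : ∀ (i : Fin (n - 1)) (a b : X) (k : ℕ) (f : Edge → X), level n f k = u →
      level n f (k + 1) = (fun j => if j = posL i then a else if j = posR i then b else u j) →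
      f (k, (i : ℕ)) = u (posL i) ∧ f (k, (i : ℕ) + 1) = u (posR i) ∧
        f (k + 1, (i : ℕ)) = a ∧ f (k + 1, (i : ℕ) + 1) = b ∧
          ∀ p ∈ straight n k i, B.Sat f p := by
    intro i a b k f h1 h2
    refine ⟨congrFun h1 (posL i), congrFun h1 (posR i), ?_, ?_, ?_⟩
    · have := congrFun h2 (posL i)
      simp only [if_true] at this
      exact this
    · have := congrFun h2 (posR i)
      simp only [if_true, if_neg (posLR i).symm] at this
      exact this
    · rw [straight_ok]
      intro j h3 h4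
      rw [h1, h2]
      simp only [if_neg h3, if_neg h4]
  cases l with
  | pos i =>
    obtain ⟨p, q, h1, h2⟩ := B.S_surj (u (posL i)) (u (posR i))
    refine ⟨fun j => if j = posL i then p else if j = posR i then q else u j, ?_⟩
    intro k f hf hf'
    obtain ⟨e1, e2, e3, e4, e5⟩ := key i p q k f hf hf'
    simp only [layer, List.mem_cons, forall_eq_or_imp]
    refine ⟨?_, e5⟩
    show B.A (f (k + 1, (i : ℕ))) (f (k + 1, (i : ℕ) + 1)) = f (k, (i : ℕ)) ∧
      B.C (f (k + 1, (i : ℕ))) (f (k + 1, (i : ℕ) + 1)) = f (k, (i : ℕ) + 1)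
    rw [e1, e2, e3, e4]
    exact ⟨h1, h2⟩
  | neg i =>
    refine ⟨fun j => if j = posL i then B.A (u (posL i)) (u (posR i)) else
      if j = posR i then B.C (u (posL i)) (u (posR i)) else u j, ?_⟩
    intro k f hf hf'
    obtain ⟨e1, e2, e3, e4, e5⟩ := key i _ _ k f hf hf'
    simp only [layer, List.mem_cons, forall_eq_or_imp]
    refine ⟨?_, e5⟩
    show B.A (f (k, (i : ℕ))) (f (k, (i : ℕ) + 1)) = f (k + 1, (i : ℕ)) ∧
      B.C (f (k, (i : ℕ))) (f (k, (i : ℕ) + 1)) = f (k + 1, (i : ℕ) + 1)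
    rw [e1, e2, e3, e4]
    exact ⟨rfl, rfl⟩
  | vir i =>
    refine ⟨fun j => if j = posL i then u (posR i) else
      if j = posR i then u (posL i) else u j, ?_⟩
    intro k f hf hf'
    obtain ⟨e1, e2, e3, e4, e5⟩ := key i _ _ k f hf hf'
    simp only [layer, List.mem_cons, forall_eq_or_imp]
    refine ⟨?_, ?_, e5⟩
    · show f (k, (i : ℕ)) = f (k + 1, (i : ℕ) + 1)
      rw [e1, e4]
    · show f (k, (i : ℕ) + 1) = f (k + 1, (i : ℕ))
      rw [e2, e3]

theorem layers_total {X : Type} (B : Bq X) {n : ℕ} (w : List (Letter n)) :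
    ∀ (k : ℕ) (u : Fin n → X), ∃ F : ℕ → Fin n → X, F k = u ∧
      ∀ f : Edge → X, (∀ m, k ≤ m → level n f m = F m) → ∀ p ∈ layers n k w, B.Sat f p := by
  induction w with
  | nil =>
    intro k u
    refine ⟨fun _ => u, rfl, ?_⟩
    intro f _ p hp
    simp [layers] at hp
  | cons l w ih =>
    intro k u
    obtain ⟨z, hz⟩ := layer_total B l u
    obtain ⟨F, hF, hF'⟩ := ih (k + 1) z
    refine ⟨fun m => if m = k then u else F m, if_pos rfl, ?_⟩
    intro f hf p hp
    have h1 : level n f k = u := (hf k le_rfl).trans (if_pos rfl)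
    have h2 : level n f (k + 1) = z := by
      rw [hf (k + 1) (by omega)]
      show (if k + 1 = k then u else F (k + 1)) = z
      rw [if_neg (by omega), hF]
    rcases List.mem_append.mp hp with hp | hp
    · exact hz k f h1 h2 p hp
    · refine hF' f ?_ p hp
      intro m hm
      rw [hf m (by omega)]
      show (if m = k then u else F m) = F m
      rw [if_neg (by omega)]

theorem braid_total {X : Type} [Inhabited X] (B : Bq X) {n : ℕ} (w : List (Letter n))
    (x : Fin n → X) : ∃ y, B.Col (braidDiagram w) x y := by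
  obtain ⟨F, hF, hF'⟩ := layers_total B w 0 x
  let f : Edge → X := fun e => if h : e.2 < n then F e.1 ⟨e.2, h⟩ else default
  have hf : ∀ k, level n f k = F k := by
    intro k
    funext j
    exact dif_pos j.2
  refine ⟨F w.length, f, hF' f (fun m _ => hf m), ?_, ?_⟩
  · intro j
    rw [← hF]
    exact congrFun (hf 0) j
  · intro j
    exact congrFun (hf w.length) j

/-! ### the counting argument -/

theorem sandwich {α : Type*} [Finite α] {P D Q R : α → α → Prop}
    (hR : ∀ x z, R x z ↔ ∃ y y', P x y ∧ D y y' ∧ Q y' z) (total : ∀ x, ∃ z, R x z)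
    (inj : ∀ x x' z, R x z → R x' z → x = x') {a b c : α} (ha : D a c) (hb : D b c) :
    a = b := by
  choose g hg using total
  choose u v h using fun x => (hR x (g x)).mp (hg x)
  have hu : Function.Injective u := by
    intro x x' e
    have h1 := h x
    rw [e] at h1
    exact inj _ _ _ (hg x) ((hR _ _).mpr ⟨_, _, (h x').1, h1.2.1, h1.2.2⟩)
  have hv : Function.Injective v := by
    intro x x' e
    have h1 := h x
    rw [e] at h1
    exact inj _ _ _ (hg x) ((hR _ _).mpr ⟨_, _, (h x').1, (h x').2.1, h1.2.2⟩)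
  obtain ⟨x, rfl⟩ := (Finite.injective_iff_surjective.mp hu) a
  obtain ⟨x', rfl⟩ := (Finite.injective_iff_surjective.mp hu) b
  obtain ⟨t, rfl⟩ := (Finite.injective_iff_surjective.mp hv) c
  have h1 : x = t := inj _ _ _ ((hR _ _).mpr ⟨_, _, (h x).1, ha, (h t).2.2⟩) (hg t)
  have h2 : x' = t := inj _ _ _ ((hR _ _).mpr ⟨_, _, (h x').1, hb, (h t).2.2⟩) (hg t)
  rw [h1, h2]

/-- If a sandwich with filling `D` is equivalent to a monotone diagram, then the colours at the top
of `D` determine the colours at the bottom. -/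
theorem filling_det {n : ℕ} {D : Diagram n} {Z : StringLinkDiagram n}
    {P Q : (Fin n → Lab) → (Fin n → Lab) → Prop}
    (hZ : ∀ x z, bq5.Col Z.1 x z ↔ ∃ y y', P x y ∧ bq5.Col D y y' ∧ Q y' z)
    (w : List (Letter n)) (hw : toVB w ∈ vP n)
    (h : (Quot.mk _ Z : bareSL n) = Quot.mk _ ⟨braidDiagram w, braid_isStringLink w hw⟩)
    {a b c : Fin n → Lab} (ha : bq5.Col D a c) (hb : bq5.Col D b c) : a = b := by
  haveI : Inhabited Lab := ⟨(0, false, false)⟩
  refine sandwich (R := bq5.Col (braidDiagram w)) (P := P) (D := bq5.Col D) (Q := Q) ?_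
    (braid_total bq5 w) (fun x x' z h1 h2 => braid_det bq5 w h1 h2) ha hb
  intro x z
  rw [← hZ]
  exact (col_bare h x z).symm

/-- Not equivalent to any monotone diagram, up to self-virtualization, crossing changes and
virtualization. -/
def NeverMonotone {n : ℕ} (D : StringLinkDiagram n) : Prop :=
  ∀ (w : List (Letter n)) (hw : toVB w ∈ vP n),
    (Quot.mk _ D : bareSL n) ≠ Quot.mk _ ⟨braidDiagram w, braid_isStringLink w hw⟩

/-- Stacking of virtual string link diagrams. -/
def stack {n : ℕ} (D E : StringLinkDiagram n) : StringLinkDiagram n :=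
  ⟨stackDiagram D.1 E.1, stack_isStringLink D.2 E.2⟩

theorem cyc_ne (m : ℕ) : (fun j => f0 ((cyc m).bot j)) ≠ fun j => f1 ((cyc m).bot j) := by
  intro h
  have h1 := congrFun h ⟨0, by omega⟩
  have h2 : ((1, false, false) : Lab) = (1, false, true) := h1
  exact absurd h2 (by decide)

theorem cyc_col (m : ℕ) :
    bq5.Col (cyc m) (fun j => f0 ((cyc m).bot j)) (fun j => f0 ((cyc m).top j)) ∧
      bq5.Col (cyc m) (fun j => f1 ((cyc m).bot j)) (fun j => f0 ((cyc m).top j)) :=
  ⟨⟨f0, f0_sat m, fun _ => rfl, fun _ => rfl⟩,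
    ⟨f1, f1_sat m, fun _ => rfl, fun j => f_top j⟩⟩

theorem main (n : ℕ) (hn : 4 ≤ n) : ∃ D : StringLinkDiagram n,
    (∀ (w : List (Letter n)) (hw : toVB w ∈ vP n),
      (Quot.mk _ D : vSLsv n) ≠ Quot.mk _ ⟨braidDiagram w, braid_isStringLink w hw⟩) ∧
    NeverMonotone D ∧
      (∀ E : StringLinkDiagram n, NeverMonotone (stack D E) ∧ NeverMonotone (stack E D)) ∧
        ∀ E F : StringLinkDiagram n, NeverMonotone (stack (stack E D) F) := by
  obtain ⟨m, rfl⟩ : ∃ m, n = m + 4 := ⟨n - 4, by omega⟩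
  obtain ⟨c0, c1⟩ := cyc_col m
  refine ⟨⟨cyc m, cyc_isStringLink m⟩, cyc_not_monotone m, ?_, ?_, ?_⟩
  · intro w hw h
    refine cyc_ne m (filling_det (P := Eq) (Q := Eq) ?_ w hw h c0 c1)
    intro x z
    constructor
    · intro h1
      exact ⟨x, z, rfl, h1, rfl⟩
    · rintro ⟨_, _, rfl, h1, rfl⟩
      exact h1
  · intro E
    constructor
    · intro w hw h
      refine cyc_ne m (filling_det (P := Eq) (Q := bq5.Col E.1) ?_ w hw h c0 c1)
      intro x z
      show bq5.Col (stackDiagram (cyc m) E.1) x z ↔ _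
      rw [col_stack]
      constructor
      · rintro ⟨y, h1, h2⟩
        exact ⟨x, y, rfl, h1, h2⟩
      · rintro ⟨_, y, rfl, h1, h2⟩
        exact ⟨y, h1, h2⟩
    · intro w hw h
      refine cyc_ne m (filling_det (P := bq5.Col E.1) (Q := Eq) ?_ w hw h c0 c1)
      intro x z
      show bq5.Col (stackDiagram E.1 (cyc m)) x z ↔ _
      rw [col_stack]
      constructor
      · rintro ⟨y, h1, h2⟩
        exact ⟨y, z, h1, h2, rfl⟩
      · rintro ⟨y, _, h1, h2, rfl⟩
        exact ⟨y, h1, h2⟩
  · intro E F w hw h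
    refine cyc_ne m (filling_det (P := bq5.Col E.1) (Q := bq5.Col F.1) ?_ w hw h c0 c1)
    intro x z
    show bq5.Col (stackDiagram (stackDiagram E.1 (cyc m)) F.1) x z ↔ _
    rw [col_stack]
    constructor
    · rintro ⟨y', h1, h2⟩
      obtain ⟨y, h3, h4⟩ := (col_stack bq5 _ _ _ _).mp h1
      exact ⟨y, y', h3, h4, h2⟩
    · rintro ⟨y, y', h1, h2, h3⟩
      exact ⟨y', (col_stack bq5 _ _ _ _).mpr ⟨y, h1, h2⟩, h3⟩

end Pool.Agent.Y463.SV
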